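import Pool.Agent.W2helper26.PB.Stm

/-!
# Project PB, piece CODE
-/

set_option autoImplicit false

namespace Pool.Agent.W2helper97.PB

open Pool.Agent.W2helper26.PB Pool.Agent.NPC Pool.Agent.H583R2

lemma stepU_halt (I : List Ins) (c : UCfg) (h : I.length ≤ c.1) (n : ℕ) :
    (stepU I)^[n] c = c := by
  induction n with
  | zero => rfl
  | succ n ih =>
    rw [Function.iterate_succ_apply', ih]
    unfold stepU
    rw [List.getElem?_eq_none h]

/-- once the universal simulation has halted nothing changes -/
lemma U_stable (cd : Code) (x : List Bool) (t t' : ℕ) (h : t ≤ t') (hn : U cd x t ≠ none) :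
    U cd x t' = U cd x t := by
  have h1 : ¬ (runU cd x t).1 < cd.1.length := by
    intro h2
    apply hn
    unfold U
    rw [if_pos (decide_eq_true h2)]
  have h2 : runU cd x t' = runU cd x t := by
    have h3 : t' = (t' - t) + t := by omega
    have h4 : runU cd x t' = (stepU cd.1)^[t' - t] (runU cd x t) := by
      conv_lhs => rw [h3]
      unfold runU
      rw [Function.iterate_add_apply]
    rw [h4]
    exact stepU_halt _ _ (not_lt.1 h1) _
  unfold U
  rw [h2]

theorem p_code : P_code := by
  rintro D ⟨h⟩
  refine ⟨codeOf h.inputAlphabet h.outputAlphabet, Polynomial.C (maxDep h.tm) * h.time,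
    fun x t => ?_⟩
  have h1 : ∀ t, (Polynomial.C (maxDep h.tm) * h.time).eval x.length ≤ t →
      U (codeOf h.inputAlphabet h.outputAlphabet) x t = some (D x) := by
    intro t ht
    rw [Polynomial.eval_mul, Polynomial.eval_C] at ht
    exact U_codeOf h.inputAlphabet h.outputAlphabet x (D x) _ (h.outputsFun x) t ht
  refine ⟨?_, h1 t⟩
  by_cases hn : U (codeOf h.inputAlphabet h.outputAlphabet) x t = none
  · exact Or.inl hn
  · right
    have h2 := U_stable _ x t (max t ((Polynomial.C (maxDep h.tm) * h.time).eval x.length))
      (le_max_left _ _) hn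
    rw [← h2]
    exact h1 _ (le_max_right _ _)

end Pool.Agent.W2helper97.PB
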